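import Pool.Agent.U523.AJ.Fin

/-!
# Transitivity of Anosov diffeomorphisms, quasi-invariant measures and periodic points
-/

set_option autoImplicit false

open scoped Manifold ContDiff Topology
open Set Filter MeasureTheory

namespace Pool.Agent.Results.MP_610fe3_an.PeriodicJacobian

open Pool.Agent.H721R2 Pool.Agent.H789R2.AN

/-- Potentials: continuous functions with the Bowen property. With
`S_n w (x) = w (x) + w (g x) + … + w (gⁿ⁻¹ x)`, there are `e > 0` and `V` such that
`|S_n w (x) - S_n w (y)| ≤ V` whenever `d(gᵏ x, gᵏ y) ≤ e` for all `k < n`.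
(All Hölder functions have this property when `g` is Anosov.) -/
def IsPotential {M : Type*} [MetricSpace M] (g : M ≃ₜ M) (w : M → ℝ) : Prop :=
  Continuous w ∧ ∃ e > 0, ∃ V : ℝ, ∀ (n : ℕ) (x y : M), (∀ k < n, dist (g^[k] x) (g^[k] y) ≤ e) →
    |birkhoffSum g w n x - birkhoffSum g w n y| ≤ V

/-- The Jacobian of `g` for the measure `m` is at least `exp w`: `m(g(A)) ≥ ∫_A exp(w) dm` for all
Borel sets `A`. -/
def JacobianGE {M : Type*} [MeasurableSpace M] (g : M → M) (m : Measure M) (w : M → ℝ) : Prop :=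
  ∀ A : Set M, MeasurableSet A → ∫⁻ x in A, ENNReal.ofReal (Real.exp (w x)) ∂m ≤ m (g '' A)

/-- The Jacobian of `g` for the measure `m` is `exp w`: `m(g(A)) = ∫_A exp(w) dm` for all Borel
sets `A`.  (Example: `m` is the volume of a Riemannian metric and `w = log |det Dg|`.) -/
def JacobianEQ {M : Type*} [MeasurableSpace M] (g : M → M) (m : Measure M) (w : M → ℝ) : Prop :=
  ∀ A : Set M, MeasurableSet A → m (g '' A) = ∫⁻ x in A, ENNReal.ofReal (Real.exp (w x)) ∂m

/-- `|det D(fᵏ)(p)|`, for a point `p` with `fᵏ(p) = p`: the absolute value of the determinant of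
the derivative of `fᵏ` at `p`, which is an endomorphism of the tangent space at `p`. -/
noncomputable def perJac (E : Type*) [NormedAddCommGroup E] [NormedSpace ℝ E]
    {M : Type*} [TopologicalSpace M] [ChartedSpace E M] (f : M → M) (k : ℕ) (p : M) : ℝ :=
  |(mfderiv 𝓘(ℝ, E) 𝓘(ℝ, E) (f^[k]) p : E →L[ℝ] E).det|

/-- **Transitivity of Anosov diffeomorphisms, quasi-invariant measures and periodic points.**
Let `f` be a `C¹` Anosov diffeomorphism of a closed connected manifold `M`, with any distance that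
defines the topology.  We consider finite Borel measures `m` on `M`, positive on the nonempty open
sets, invariant or not, and potentials `w`; `S_k w(p) = w(p) + w(f p) + ⋯ + w(fᵏ⁻¹ p)`.

1. `f` is topologically transitive if and only if there are such `m` and `w` for which the Jacobian
   of `f` for `m` is at least `exp w` and `S_k w(p) ≥ 0` at all periodic points, `fᵏ(p) = p`.
2. If `f` is not transitive and the Jacobian of `f` for `m` is `exp w`, then there are finite sets
   `P`, `Q` of periodic points, of period `T`, with `S_T w(p) < 0` on `P` and `S_T w(q) > 0` on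
   `Q`, such that the points `x` which are at the same time forward asymptotic to a point of `P` and
   backward asymptotic to a point of `Q` are dense in `M`.
3. The same for the volume: if `f` is of class `C²` and not transitive, then there are finite sets
   `P`, `Q` of periodic points, of period `T`, with `|det D(f^T)(p)| < 1` on `P` and
   `|det D(f^T)(q)| > 1` on `Q`, such that the points `x` which are at the same time forward
   asymptotic to a point of `P` and backward asymptotic to a point of `Q` are dense in `M`.  In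
   particular a `C²` Anosov diffeomorphism is transitive if `|det D(fᵏ)(p)| ≥ 1` at all periodic
   points, `fᵏ(p) = p`, or `≤ 1` at all of them. -/
theorem result (E : Type*) [NormedAddCommGroup E] [NormedSpace ℝ E] [FiniteDimensional ℝ E]
    (M : Type*) [MetricSpace M] [CompactSpace M] [ConnectedSpace M]
    [MeasurableSpace M] [BorelSpace M]
    [ChartedSpace E M] [IsManifold 𝓘(ℝ, E) ∞ M] (f : Diffeomorph 𝓘(ℝ, E) 𝓘(ℝ, E) M M 1)
    (Es Eu : ∀ x : M, Submodule ℝ (TangentSpace 𝓘(ℝ, E) x)) (hf : IsAnosov f Es Eu) :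
    (TopTransitive f ↔ ∃ (m : Measure M) (w : M → ℝ), IsFiniteMeasure m ∧ m.IsOpenPosMeasure ∧
      IsPotential f.toHomeomorph w ∧ JacobianGE f m w ∧
      ∀ (k : ℕ) (p : M), 1 ≤ k → f^[k] p = p → 0 ≤ birkhoffSum f w k p) ∧
    (¬ TopTransitive f → ∀ (m : Measure M) (w : M → ℝ), IsFiniteMeasure m → m.IsOpenPosMeasure →
      IsPotential f.toHomeomorph w → JacobianEQ f m w →
      ∃ (T : ℕ) (P Q : Set M), 1 ≤ T ∧ P.Finite ∧ Q.Finite ∧
        (∀ p ∈ P, f^[T] p = p ∧ birkhoffSum f w T p < 0) ∧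
        (∀ q ∈ Q, f^[T] q = q ∧ 0 < birkhoffSum f w T q) ∧
        Dense {x : M | (∃ p ∈ P, Tendsto (fun k : ℕ => f^[T * k] x) atTop (𝓝 p)) ∧
          ∃ q ∈ Q, Tendsto (fun k : ℕ => f.symm^[T * k] x) atTop (𝓝 q)}) ∧
    (ContMDiff 𝓘(ℝ, E) 𝓘(ℝ, E) 2 f → ContMDiff 𝓘(ℝ, E) 𝓘(ℝ, E) 2 f.symm →
      (¬ TopTransitive f → ∃ (T : ℕ) (P Q : Set M), 1 ≤ T ∧ P.Finite ∧ Q.Finite ∧
        (∀ p ∈ P, f^[T] p = p ∧ perJac E f T p < 1) ∧
        (∀ q ∈ Q, f^[T] q = q ∧ 1 < perJac E f T q) ∧
        Dense {x : M | (∃ p ∈ P, Tendsto (fun k : ℕ => f^[T * k] x) atTop (𝓝 p)) ∧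
          ∃ q ∈ Q, Tendsto (fun k : ℕ => f.symm^[T * k] x) atTop (𝓝 q)}) ∧
      ((∀ (k : ℕ) (p : M), 1 ≤ k → f^[k] p = p → 1 ≤ perJac E f k p) ∨
        (∀ (k : ℕ) (p : M), 1 ≤ k → f^[k] p = p → perJac E f k p ≤ 1) → TopTransitive f)) := by
  refine ⟨Pool.Agent.U523.AJ.criterion f Es Eu hf,
    fun hnt m _ h1 h2 h3 h4 => Pool.Agent.U523.AJ.two_sided f Es Eu hf hnt h3 m h1 h2 h4,
    fun h1 h2 => ⟨fun hnt => Pool.Agent.Y321.PJ.main f h1 h2 Es Eu hf hnt, fun h => ?_⟩⟩
  by_contra hnt
  obtain ⟨n, P, Q, hn, -, -, hP, hQ, hd⟩ := Pool.Agent.Y321.PJ.main f h1 h2 Es Eu hf hnt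
  obtain ⟨x, ⟨p, hp, -⟩, ⟨q, hq, -⟩⟩ := hd.nonempty
  rcases h with h | h
  · exact absurd (h n p hn (hP p hp).1) (not_le.mpr (hP p hp).2)
  · exact absurd (h n q hn (hQ q hq).1) (not_le.mpr (hQ q hq).2)

end Pool.Agent.Results.MP_610fe3_an.PeriodicJacobian
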