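import Pool.Agent.N234.TG.Main

set_option autoImplicit false

open scoped Manifold ContDiff Topology
open Set Filter

namespace Pool.Agent.Results.MP_610fe3_an.TransverseStructures

open Pool.Agent.H721R2 Pool.Agent.H789R2.AN Pool.Agent.N234.TG Pool.Agent.TH289.K

/-- **Anosov diffeomorphisms that expand a transverse `(G, Y)`-structure are topologically
transitive.**
Let `f` be a `C¹` Anosov diffeomorphism of a closed connected smooth manifold `M`, and let a
topological group `G` act continuously on a locally compact Hausdorff space `Y`.  Suppose that there
is a transverse `(G, Y)`-structure `D`: one chart `y ↦ π x y • p y` into `Y` at every point `x` of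
`M`, the changes of charts being given by a cocycle `π` with values in (a compact part of) `G`, such
that
* `f` is given in the charts by elements `B x` of `G` (it preserves the structure);
* `f` is expanding in the charts (`Expanding D`): a point of `Y` other than the centre of the chart
  leaves every compact set under the iterates of `f` read in the charts, uniformly;
* the charts are injective on the local unstable sets (`InjUnstable D`).

(Examples: the stable foliation is transversely affine, invariantly under `f`; or transversely
modelled on a nilpotent Lie group or a homogeneous space of it.  Completeness of the structure is not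
assumed, nor is the image of the charts open, nor is any point of `M` assumed nonwandering.)

Then `f` is topologically transitive, its periodic points are dense, and it has global product
structure. -/
theorem result (E : Type*) [NormedAddCommGroup E] [NormedSpace ℝ E] [FiniteDimensional ℝ E]
    (M : Type*) [TopologicalSpace M] [T2Space M] [CompactSpace M] [ConnectedSpace M]
    [ChartedSpace E M] [IsManifold 𝓘(ℝ, E) ∞ M] (f : Diffeomorph 𝓘(ℝ, E) 𝓘(ℝ, E) M M 1)
    (Es Eu : ∀ x : M, Submodule ℝ (TangentSpace 𝓘(ℝ, E) x)) (hf : IsAnosov f Es Eu)
    (G : Type*) [Group G] [TopologicalSpace G] [IsTopologicalGroup G]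
    (Y : Type*) [TopologicalSpace Y] [T2Space Y] [LocallyCompactSpace Y] [MulAction G Y]
    [ContinuousSMul G Y] (D : TransStr f.toHomeomorph G Y) (hexp : Expanding D)
    (hinj : InjUnstable D) :
    TopTransitive f ∧ Dense (Function.periodicPts f) ∧ GPS f.toHomeomorph := by
  obtain ⟨h1, h2, h3, -, -⟩ := man_main f Es Eu hf D hexp hinj
  exact ⟨h1, h2, h3⟩

end Pool.Agent.Results.MP_610fe3_an.TransverseStructures
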