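import Pool.Agent.Y330.G.A9

/-!
# Transitivity of Anosov diffeomorphisms and the growth of the local leaves

Let `f` be a `C¹` Anosov diffeomorphism of a closed connected manifold `M`, with any distance that
defines the topology. For a point `x` let `growth f ε δ n x` be the largest number of points in the local
unstable set of `x` of size `ε` which are pairwise more than `δ` apart at some time between `0` and `n`
(for the unit volume growth of the unstable leaves this is the volume, up to a constant factor).

The theorem: `f` is topologically transitive if and only if this growth is, up to a bounded factor, the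
same at all points of `M`, for `f` and for `f⁻¹`: there is a constant `C` with
`growth f ε δ n x ≤ C * growth f ε δ n y` for all `n`, `x`, `y`, and the same for `f⁻¹`. Here `ε` and `δ`
are any two sufficiently small scales.

In particular an Anosov diffeomorphism that is not transitive has, in every scale, unstable or stable
leaves whose growth is not comparable: although the manifold is connected and the local leaves can be
joined by chains of local product boxes, the quotients of the growth functions at two points are
unbounded. No hypothesis on the dimensions of the bundles, on the manifold, or on regularity beyond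
`C¹` is made.

Idea of the proof. If `f` is transitive then every local unstable set is brought near every other one
by an iterate of bounded order, and a stable holonomy compares the growth. Conversely, if `f` is not
transitive, there are a proper attractor and a proper repeller, which are joined by orbits, since `M` is
connected. The orbit segments of length `n` which leave the repeller at the time `i` are, up to
constants, at least as many as the product of the smallest growth of the stable leaves up to the
time `i` and the smallest growth of the unstable leaves up to the time `n - i`, and they are different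
for different `i`. If both growths are uniform, each of these products turns out to be comparable to
the growth at the time `n`, and their number tends to infinity, a contradiction.
-/

set_option autoImplicit false

open scoped Manifold ContDiff Topology

namespace Pool.Agent.Results.MP_610fe3_an.UniformGrowth

open Pool.Agent.H721R2 Pool.Agent.H789R2.AN

/-- The local unstable set of `x` of size `ε`: all `y` with `d(g⁻ᵏ x, g⁻ᵏ y) ≤ ε` for all
`k ≥ 0`. -/
def localUnstable {M : Type*} [MetricSpace M] (g : M ≃ₜ M) (ε : ℝ) (x : M) : Set M :=
  {y | ∀ k : ℕ, dist (g.symm^[k] x) (g.symm^[k] y) ≤ ε}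

/-- `F` is `(n, δ)`-separated: any two different points of `F` have a distance greater than `δ` at
some time `k ≤ n`. -/
def IsSeparated {M : Type*} [MetricSpace M] (g : M ≃ₜ M) (δ : ℝ) (n : ℕ) (F : Finset M) : Prop :=
  ∀ y ∈ F, ∀ z ∈ F, y ≠ z → ∃ k ≤ n, δ < dist (g^[k] y) (g^[k] z)

/-- The growth of the local unstable set of `x` of size `ε`: the largest cardinality of an
`(n, δ)`-separated finite subset. (If `M` is compact and `δ > 0` these cardinalities are bounded, so
that the supremum is a maximum.) -/
noncomputable def growth {M : Type*} [MetricSpace M] (g : M ≃ₜ M) (ε δ : ℝ) (n : ℕ) (x : M) : ℕ :=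
  sSup {m | ∃ F : Finset M, (F : Set M) ⊆ localUnstable g ε x ∧ IsSeparated g δ n F ∧ F.card = m}

/-- **Transitivity of Anosov diffeomorphisms and uniform growth.** Let `f` be a `C¹` Anosov
diffeomorphism of a closed connected manifold `M`, with any distance that defines the topology. For all
sufficiently small scales `ε`, `δ` the map `f` is topologically transitive if and only if the growth of
its local unstable sets and the growth of its local stable sets (the local unstable sets of `f⁻¹`) are
uniform, i.e. do not depend on the point up to a bounded factor. -/
theorem result (E : Type*) [NormedAddCommGroup E] [NormedSpace ℝ E] [FiniteDimensional ℝ E]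
    (M : Type*) [MetricSpace M] [CompactSpace M] [ConnectedSpace M]
    [ChartedSpace E M] [IsManifold 𝓘(ℝ, E) ∞ M] (f : Diffeomorph 𝓘(ℝ, E) 𝓘(ℝ, E) M M 1)
    (Es Eu : ∀ x : M, Submodule ℝ (TangentSpace 𝓘(ℝ, E) x)) (hf : IsAnosov f Es Eu) :
    ∃ r > 0, ∀ ε > 0, ε ≤ r → ∀ δ > 0, δ ≤ r →
      (TopTransitive f ↔
        (∃ C : ℕ, ∀ n x y, growth f.toHomeomorph ε δ n x ≤ C * growth f.toHomeomorph ε δ n y) ∧
        ∃ C : ℕ, ∀ n x y, growth f.toHomeomorph.symm ε δ n x ≤
          C * growth f.toHomeomorph.symm ε δ n y) := by
  have e : ∀ (g : M ≃ₜ M) (ε δ : ℝ) (n : ℕ) (x : M),
      growth g ε δ n x = Pool.Agent.Y330.G.P g ε δ n x := by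
    intro g ε δ n x
    unfold growth Pool.Agent.Y330.G.P Pool.Agent.Y330.G.Val
    congr 1
    ext m
    constructor
    · rintro ⟨F, h1, h2, h3⟩
      exact ⟨F, ⟨fun y hy => h1 hy, h2⟩, h3⟩
    · rintro ⟨F, ⟨h1, h2⟩, h3⟩
      exact ⟨F, fun y hy => h1 y hy, h2, h3⟩
  simp only [e]
  exact Pool.Agent.Y330.G.man_growth f Es Eu hf

end Pool.Agent.Results.MP_610fe3_an.UniformGrowth
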